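import Pool.Agent.Helper12.G.R_seed8.W619.Y.Defs
import Pool.Agent.Helper12.G.R_seed8.W619.TW.Der
import Pool.Agent.Helper12.G.R_seed8.W619.PQ.Local
import Pool.Agent.Helper12.G.R_seed8.W619.PQ.Tr

/-! Groups permuting the factors: statements of the parts. -/

set_option autoImplicit false
set_option linter.overlappingInstances false
set_option linter.unusedSectionVars false

universe u v

open FF IntermediateField Pool.Agent.W619.PQ Pool.Agent.W619.PL Pool.Agent.W619.TW
  Pool.Agent.W603.LV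

namespace Pool.Agent.W619.Y

/-- Derivations which preserve the valuation ring of `v` in `K` (and are logarithmic if `w` is
ramified over `v`) preserve the valuation ring of `w`. -/
def S_PRES : Prop := ∀ (k : Type v) (K L : Type u) [Field k] [CharZero k] [Field K] [Field L]
  [Algebra k K] [Algebra k L] [Algebra K L] [IsScalarTower k K L] [FiniteDimensional K L]
  (v : Place k K) (w : Place k L) (e : ℕ), Over w v e → ∀ D : Derivation k L L,
    (∀ x : K, v.Reg x → w.Reg (D (algebraMap K L x))) →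
    (e = 1 ∨ ∀ x : K, v.Reg x → w.Reg (D (algebraMap K L x) / algebraMap K L x)) →
    ∀ z : L, w.Reg z → w.Reg (D z)

/-- Derivations which are logarithmic at `v` on `K` are logarithmic at `w` on `L`. -/
def S_LOG : Prop := ∀ (k : Type v) (K L : Type u) [Field k] [CharZero k] [Field K] [Field L]
  [Algebra k K] [Algebra k L] [Algebra K L] [IsScalarTower k K L] [FiniteDimensional K L]
  (v : Place k K) (w : Place k L) (e : ℕ), Over w v e → ∀ D : Derivation k L L,
    (∀ x : K, w.Reg (D (algebraMap K L x) / algebraMap K L x)) →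
    ∀ z : L, w.Reg (D z / z)

/-- Coordinates at a divisorial place. -/
def S_FRAME : Prop := ∀ (k : Type v) (K : Type u) [Field k] [CharZero k] [Field K] [Algebra k K]
  (n : ℕ), Algebra.trdeg k K = n →
    (∀ y : Fin n → K, IsTranscendenceBasis k y →
      FiniteDimensional (IntermediateField.adjoin k (Set.range y)) K) →
    ∀ v : Place k K, IsDivisorial v n →
    ∃ (y : Fin n → K) (E : Fin n → Derivation k K K) (i0 : Fin n), IsTranscendenceBasis k y ∧
      (∀ i j, E i (y j) = if i = j then 1 else 0) ∧ v.ord (y i0) = 1 ∧ (∀ i, v.Reg (y i)) ∧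
      ∀ i, Pres v (E i)

/-- A divisorial place of `L` lies over a divisorial place of `K`. -/
def S_DIVI : Prop := ∀ (k : Type v) (K L : Type u) [Field k] [CharZero k] [Field K] [Field L]
  [Algebra k K] [Algebra k L] [Algebra K L] [IsScalarTower k K L] [FiniteDimensional K L] (n : ℕ)
  (v : Place k K) (w : Place k L) (e : ℕ), Over w v e → IsDivisorial w n → IsDivisorial v n

/-- The boundary upstairs. -/
def BdUp {k : Type v} {K L : Type u} [Field k] [Field K] [Field L] [Algebra k K] [Algebra k L]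
    [Algebra K L] (Bd : Place k K → Prop) (w : Place k L) : Prop :=
  ∃ (v : Place k K) (e : ℕ), Over w v e ∧ Bd v

open scoped Classical in
/-- Pull-back of sections. -/
def S_PULL : Prop := ∀ (k : Type v) (K L : Type u) [Field k] [CharZero k] [Field K] [Field L]
  [Algebra k K] [Algebra k L] [Algebra K L] [IsScalarTower k K L] [FiniteDimensional K L]
  (n : ℕ), Algebra.trdeg k K = n →
  (∀ y : Fin n → K, IsTranscendenceBasis k y →
    FiniteDimensional (IntermediateField.adjoin k (Set.range y)) K) →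
  ∀ (Bd : Place k K → Prop) (S : Finset K) (m j : ℕ) (y : Fin n → K)
    (E : Fin n → Derivation k K K), IsTranscendenceBasis k y →
    (∀ i j, E i (y j) = if i = j then 1 else 0) →
    ∀ ω : (Fin n → Derivation k K K) → K, IsSec k K n Bd S m j ω →
      IsSec k L n (BdUp Bd) (S.image (algebraMap K L)) m j
        (fun D => (Matrix.of fun a b => D a (algebraMap K L (y b))).det ^ m *
          algebraMap K L (ω E))

/-- Pseudo-effectivity and numerical dimension under finite extensions. -/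
def S_TRANS : Prop := ∀ (k : Type v) (K L : Type u) [Field k] [CharZero k] [Field K] [Field L]
  [Algebra k K] [Algebra k L] [Algebra K L] [IsScalarTower k K L] [FiniteDimensional K L]
  (n : ℕ), Algebra.trdeg k K = n →
  (∀ y : Fin n → K, IsTranscendenceBasis k y →
    FiniteDimensional (IntermediateField.adjoin k (Set.range y)) K) →
  ∀ (Bd : Place k K → Prop), (IsPsef k K n Bd → IsPsef k L n (BdUp Bd)) ∧
    (NumNeg k L n (BdUp Bd) → NumNeg k K n Bd) ∧
    ∀ h, NumLe k L n (BdUp Bd) h → NumLe k K n Bd h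

/-- Determinants of matrices whose rows are permuted by an automorphism in the inertia group. -/
def S_DET : Prop := ∀ (k : Type v) (L : Type u) [Field k] [CharZero k] [IsAlgClosed k] [Field L]
  [Algebra k L] (n e : ℕ) (w : Place k L) (h : L ≃ₐ[k] L) (ζ : k) (τ : Equiv.Perm (Fin n))
  (M : Matrix (Fin n) (Fin n) L), 0 < e → IsPrimitiveRoot ζ e →
    (∀ (a : ℕ) (x : L), x ≠ 0 → h x = algebraMap k L (ζ ^ a) * x → (e : ℤ) ∣ w.ord x - a) →
    τ ^ e = 1 → (∀ i j, h (M i j) = M (τ i) j) → (∀ i j, Ge w 0 (M i j)) → M.det ≠ 0 →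
    (e : ℤ) * (n - ({i : Fin n | ∀ r : ℕ, i ≤ (τ ^ r) i}.ncard : ℤ)) ≤ 2 * w.ord M.det

/-- Sums over the orbits of a permutation. -/
def S_ORB : Prop := ∀ (n N e m : ℕ) (τ : Equiv.Perm (Fin n)) (U : Set (Fin n))
  (α β : Fin n → ℤ), (∀ i, i ∈ U ↔ τ i ∈ U) → (∀ i, α (τ i) = α i) → (∀ i, 0 ≤ β i) →
    (∀ i ∈ U, (m : ℤ) * α i ≤ N * β i) →
    (∀ i ∈ U, ∀ r : ℕ, 0 < r → (τ ^ r) i = i → (e : ℤ) ≤ r * α i) →
    (m : ℤ) * e * ({i : Fin n | i ∈ U ∧ ∀ r : ℕ, i ≤ (τ ^ r) i}.ncard : ℤ) ≤ N * ∑ i, β i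

/-- Equivariant families. -/
def S_EQV : Prop := ∀ (Γ : Type u) [Group Γ] (n : ℕ) (σ : Γ →* Equiv.Perm (Fin n)) (α : Type u)
  [MulAction Γ α] (R : Fin n → α → Prop), (∀ (g : Γ) i a, R i a → R (σ g i) (g • a)) →
    (∀ i a, R i a → ∀ g : Γ, σ g i = i → g • a = a) → (∀ i, ∃ a, R i a) →
    ∃ a : Fin n → α, (∀ i, R i (a i)) ∧ ∀ (g : Γ) i, g • a i = a (σ g i)

/-- Extension of derivations. -/
def S_EXT : Prop := ∀ (k : Type v) (K L : Type u) [Field k] [CharZero k] [Field K] [Field L]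
  [Algebra k K] [Algebra k L] [Algebra K L] [IsScalarTower k K L] [Algebra.IsAlgebraic K L]
  (n : ℕ), Algebra.trdeg k K = n → ∀ D : Derivation k K K, ∃ D' : Derivation k L L,
    (∀ f : K, D' (algebraMap K L f) = algebraMap K L (D f)) ∧
    (∀ D'' : Derivation k L L, (∀ f : K, D'' (algebraMap K L f) = algebraMap K L (D f)) →
      D'' = D') ∧
    ∀ g : L ≃ₐ[k] L, (∀ f : K, g (algebraMap K L f) = algebraMap K L f) →
      ∀ z : L, g (D' z) = D' (g z)

/-- The pluricanonical forms on the quotient. -/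
def S_FORM : Prop := ∀ (k : Type v) (L : Type u) [Field k] [CharZero k] [Field L] [Algebra k L]
  (n : ℕ) (G : Subgroup (L ≃ₐ[k] L)) [Finite G] (σ : G →* Equiv.Perm (Fin n)) (x : Fin n → L)
  (m : ℕ) (B : L), Algebra.trdeg k L = n →
    (∀ (g : G) i, (g : L ≃ₐ[k] L) (x i) = x (σ g i)) → Even m →
    (∀ g : G, (g : L ≃ₐ[k] L) B = B) →
    ∃ ω : (Fin n → Derivation k (fixedField G) (fixedField G)) → fixedField G,
      IsPluriForm k (fixedField G) n m ω ∧
      ∀ (D : Fin n → Derivation k (fixedField G) (fixedField G)) (D' : Fin n → Derivation k L L),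
        (∀ j (f : fixedField G), D' j (f : L) = (D j f : L)) →
        ((ω D : fixedField G) : L) = B * (Matrix.of fun i j => D' j (x i)).det ^ m

/-- The logarithmic estimate at a place of `L`, with a generator `h` of the inertia group. -/
def S_REGLOG : Prop := ∀ (k : Type v) (L : Type u) [Field k] [CharZero k] [IsAlgClosed k]
  [Field L] [Algebra k L] (n : ℕ) (F : Fin n → IntermediateField k L) [∀ i, IsFF k (F i)]
  (G : Subgroup (L ≃ₐ[k] L)) [Finite G] (σ : G →* Equiv.Perm (Fin n)),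
    (∀ (g : G) i, ∀ z ∈ F i, (g : L ≃ₐ[k] L) z ∈ F (σ g i)) →
    ∀ (N m e : ℕ), 2 ≤ N → FreeIn N G σ F →
    ∀ (w : Place k L) (h : G) (ζ : k), orderOf h = e → IsPrimitiveRoot ζ e →
      (∀ z : L, z ≠ 0 → Ge w (w.ord z + 1)
        ((h : L ≃ₐ[k] L) z - algebraMap k L (ζ ^ (w.ord z)) * z)) →
      (e = 1 → ∃ i, ∃ z ∈ F i, w.ord z ≠ 0) →
    ∀ (x b : Fin n → L), (∀ i, x i ∈ Quo G σ F i) → (∀ i, Transcendental k (x i)) →
      (∀ (g : G) i, (g : L ≃ₐ[k] L) (x i) = x (σ g i)) →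
      (∀ i, b i ∈ Quo G σ F i) → (∀ i, b i ≠ 0) →
      (∀ i, GoodAt (Quo G σ F i) N m (x i) (b i)) →
    ∀ D : Fin n → Derivation k L L, (∀ j, ∀ z, w.Reg (D j z / z)) →
      (∀ j z, (h : L ≃ₐ[k] L) (D j z) = D j ((h : L ≃ₐ[k] L) z)) →
      Ge w (m * e) ((∏ i, b i) * (Matrix.of fun i j => D j (x i)).det ^ m)

/-- The estimate for vector fields which are regular at a place `v` of the quotient: there is a place
`w` over `v` which works for all good forms. -/
def S_REG : Prop := ∀ (k : Type v) (L : Type u) [Field k] [CharZero k] [IsAlgClosed k]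
  [Field L] [Algebra k L] (n : ℕ) (F : Fin n → IntermediateField k L) [∀ i, IsFF k (F i)]
  (G : Subgroup (L ≃ₐ[k] L)) [Finite G] (σ : G →* Equiv.Perm (Fin n)),
    Algebra.trdeg k L = n → Algebra.IsAlgebraic ↥(⨆ i, F i) L →
    (∀ (g : G) i, ∀ z ∈ F i, (g : L ≃ₐ[k] L) z ∈ F (σ g i)) →
    ∀ (N : ℕ), 2 ≤ N → FreeIn N G σ F →
    ∀ x : Fin n → L, (∀ i, x i ∈ Quo G σ F i) → (∀ i, Transcendental k (x i)) →
      (∀ (g : G) i, (g : L ≃ₐ[k] L) (x i) = x (σ g i)) →
    ∀ v : Place k (fixedField G), ∃ (w : Place k L) (e : ℕ), Over w v e ∧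
      ∀ (m : ℕ) (b : Fin n → L), (∀ i, b i ∈ Quo G σ F i) → (∀ i, b i ≠ 0) →
        (∀ i, GoodAt (Quo G σ F i) N m (x i) (b i)) →
      ∀ (D : Fin n → Derivation k (fixedField G) (fixedField G)) (D' : Fin n → Derivation k L L),
        (∀ j, Pres v (D j)) → (∀ j (f : fixedField G), D' j (f : L) = (D j f : L)) →
        Ge w 0 ((∏ i, b i) * (Matrix.of fun i j => D' j (x i)).det ^ m)

/-- Growth of the pluricanonical forms. -/
def S_KOD : Prop := ∀ (k : Type v) (L : Type u) [Field k] [CharZero k] [IsAlgClosed k]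
  [Field L] [Algebra k L] (n : ℕ) (F : Fin n → IntermediateField k L) [∀ i, IsFF k (F i)]
  (G : Subgroup (L ≃ₐ[k] L)) [Finite G] (σ : G →* Equiv.Perm (Fin n)),
    Algebra.trdeg k L = n → Algebra.IsAlgebraic ↥(⨆ i, F i) L →
    (∀ (g : G) i, ∀ z ∈ F i, (g : L ≃ₐ[k] L) z ∈ F (σ g i)) →
    ∀ (N m : ℕ), 2 ≤ N → FreeIn N G σ F → 1 ≤ m → Even m →
    ∀ (H : Set (Fin n)) (x c c' : Fin n → L), (∀ (g : G) i, i ∈ H → σ g i ∈ H) →
      (∀ i, x i ∈ Quo G σ F i) → (∀ i, Transcendental k (x i)) →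
      (∀ (g : G) i, (g : L ≃ₐ[k] L) (x i) = x (σ g i)) →
      (∀ i, c i ∈ Quo G σ F i) → (∀ i, c i ≠ 0) → (∀ i, c' i ∈ Quo G σ F i) → (∀ i, c' i ≠ 0) →
      (∀ (g : G) i, (g : L ≃ₐ[k] L) (c i) = c (σ g i)) →
      (∀ (g : G) i, (g : L ≃ₐ[k] L) (c' i) = c' (σ g i)) →
      (∀ i, GoodAt (Quo G σ F i) N m (x i) (c i)) →
      (∀ i, GoodAt (Quo G σ F i) N m (x i) (c' i)) →
      (∀ i ∈ H, Transcendental k (c' i / c i)) →
      KodGe k (fixedField G) n (fun _ => False) H.ncard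

end Pool.Agent.W619.Y
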