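import Pool.Agent.Helper12.G.R_seed8.W619.Y.Stm

/-! Quotients of `Y × C 1 × ... × C n`: statements of the parts. -/

set_option autoImplicit false
set_option linter.overlappingInstances false
set_option linter.unusedSectionVars false

universe u v

open FF IntermediateField Pool.Agent.W619.PQ Pool.Agent.W619.PL Pool.Agent.W619.TW
  Pool.Agent.W603.LV

namespace Pool.Agent.W619.Y

/-- The `m`-form `a (dy) ^ m` (in the `d` coordinates `y`) is regular at the place `w` in the sense
that it can be written as `a' (dz) ^ m` with `a'` and the coordinates `z` regular at `w`. -/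
def YGood {k : Type v} {L : Type u} [Field k] [Field L] [Algebra k L] (d m : ℕ) (w : Place k L)
    (y : Fin d → L) (a : L) : Prop :=
  ∃ (Z : Matrix (Fin d) (Fin d) L) (z : Fin d → L), (∀ c, w.Reg (z c)) ∧
    (∀ (D : Derivation k L L) l, D (y l) = ∑ c, Z l c * D (z c)) ∧ Ge w 0 (a * Z.det ^ m)

/-- Determinants of matrices some of whose rows are permuted by an automorphism in the inertia
group. -/
def S_DET2 : Prop := ∀ (k : Type v) (L : Type u) [Field k] [CharZero k] [IsAlgClosed k] [Field L]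
  [Algebra k L] (d n e : ℕ) (w : Place k L) (h : L ≃ₐ[k] L) (ζ : k) (τ : Equiv.Perm (Fin n))
  (M : Matrix (Fin (d + n)) (Fin (d + n)) L), 0 < e → IsPrimitiveRoot ζ e →
    (∀ (a : ℕ) (x : L), x ≠ 0 → h x = algebraMap k L (ζ ^ a) * x → (e : ℤ) ∣ w.ord x - a) →
    τ ^ e = 1 → (∀ i j, h (M (Fin.natAdd d i) j) = M (Fin.natAdd d (τ i)) j) →
    (∀ i j, Ge w 0 (M i j)) → M.det ≠ 0 →
    (e : ℤ) * (n - ({i : Fin n | ∀ r : ℕ, i ≤ (τ ^ r) i}.ncard : ℤ)) ≤ 2 * w.ord M.det

/-- The restriction of a divisorial place to a subfield is divisorial (if it is not trivial). -/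
def S_DIVR : Prop := ∀ (k : Type v) (K L : Type u) [Field k] [CharZero k] [Field K] [Field L]
  [Algebra k K] [Algebra k L] [Algebra K L] [IsScalarTower k K L] (d n : ℕ)
  (v : Place k K) (w : Place k L) (e : ℕ), Algebra.trdeg k K = d → Algebra.trdeg k L = n →
    Over w v e → IsDivisorial w n → IsDivisorial v d

/-- Regular pluricanonical forms on a subfield are good at all divisorial places of `L`. -/
def S_YLOC : Prop := ∀ (k : Type v) (L : Type u) [Field k] [CharZero k] [Field L] [Algebra k L]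
  (M : IntermediateField k L) (d n m : ℕ), Algebra.trdeg k M = d → Algebra.trdeg k L = n →
    (∀ y : Fin d → M, IsTranscendenceBasis k y →
      FiniteDimensional (IntermediateField.adjoin k (Set.range y)) M) →
    ∀ η : (Fin d → Derivation k M M) → M, IsPluriForm k M d m η →
      (∀ u : Place k M, IsDivisorial u d → RegularAt u d η) →
    ∀ (y : Fin d → M) (E : Fin d → Derivation k M M), IsTranscendenceBasis k y →
      (∀ i j, E i (y j) = if i = j then 1 else 0) →
    ∀ w : Place k L, IsDivisorial w n → YGood d m w (fun l => (y l : L)) ((η E : M) : L)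

/-- The logarithmic estimate at a place of `L`, with a generator `h` of the inertia group. -/
def S_REGLOG2 : Prop := ∀ (k : Type v) (L : Type u) [Field k] [CharZero k] [IsAlgClosed k]
  [Field L] [Algebra k L] (d n : ℕ) (F : Fin n → IntermediateField k L) [∀ i, IsFF k (F i)]
  (G : Subgroup (L ≃ₐ[k] L)) [Finite G] (σ : G →* Equiv.Perm (Fin n)),
    (∀ (g : G) i, ∀ z ∈ F i, (g : L ≃ₐ[k] L) z ∈ F (σ g i)) →
    ∀ (N m e : ℕ), 2 ≤ N → FreeIn N G σ F →
    ∀ (w : Place k L) (h : G) (ζ : k), orderOf h = e → IsPrimitiveRoot ζ e →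
      (∀ z : L, z ≠ 0 → Ge w (w.ord z + 1)
        ((h : L ≃ₐ[k] L) z - algebraMap k L (ζ ^ (w.ord z)) * z)) →
      (e = 1 → ∃ i, ∃ z ∈ F i, w.ord z ≠ 0) →
    ∀ (y : Fin d → L) (a : L), YGood d m w y a →
    ∀ (x b : Fin n → L), (∀ i, x i ∈ Quo G σ F i) → (∀ i, Transcendental k (x i)) →
      (∀ (g : G) i, (g : L ≃ₐ[k] L) (x i) = x (σ g i)) →
      (∀ i, b i ∈ Quo G σ F i) → (∀ i, b i ≠ 0) →
      (∀ i, GoodAt (Quo G σ F i) N m (x i) (b i)) →
    ∀ D : Fin (d + n) → Derivation k L L, (∀ j, ∀ z, w.Reg (D j z / z)) →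
      (∀ j z, (h : L ≃ₐ[k] L) (D j z) = D j ((h : L ≃ₐ[k] L) z)) →
      Ge w (m * e) (a * (∏ i, b i) *
        (Matrix.of fun i j => D j ((Fin.append y x : Fin (d + n) → L) i)).det ^ m)

/-- The estimate for vector fields which are regular at a place `v` of the quotient. -/
def S_REG2 : Prop := ∀ (k : Type v) (L : Type u) [Field k] [CharZero k] [IsAlgClosed k]
  [Field L] [Algebra k L] (d n : ℕ) (F : Fin n → IntermediateField k L) [∀ i, IsFF k (F i)]
  (G : Subgroup (L ≃ₐ[k] L)) [Finite G] (σ : G →* Equiv.Perm (Fin n)),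
    Algebra.trdeg k L = (d + n : ℕ) →
    (∀ (g : G) i, ∀ z ∈ F i, (g : L ≃ₐ[k] L) z ∈ F (σ g i)) →
    ∀ (N : ℕ), 2 ≤ N → FreeIn N G σ F →
    ∀ x : Fin n → L, (∀ i, x i ∈ Quo G σ F i) → (∀ i, Transcendental k (x i)) →
      (∀ (g : G) i, (g : L ≃ₐ[k] L) (x i) = x (σ g i)) →
    ∀ v : Place k (fixedField G), IsDivisorial v (d + n) →
      ∃ (w : Place k L) (e : ℕ), Over w v e ∧
      ∀ (m : ℕ) (b : Fin n → L), (∀ i, b i ∈ Quo G σ F i) → (∀ i, b i ≠ 0) →
        (∀ i, GoodAt (Quo G σ F i) N m (x i) (b i)) →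
      ∀ (y : Fin d → L) (a : L), (∀ w : Place k L, IsDivisorial w (d + n) → YGood d m w y a) →
      ∀ (D : Fin (d + n) → Derivation k (fixedField G) (fixedField G))
        (D' : Fin (d + n) → Derivation k L L),
        (∀ j, Pres v (D j)) → (∀ j (f : fixedField G), D' j (f : L) = (D j f : L)) →
        ∀ g : G, Ge w 0 ((g : L ≃ₐ[k] L) (a * (∏ i, b i) *
          (Matrix.of fun i j => D' j ((Fin.append y x : Fin (d + n) → L) i)).det ^ m))

/-- Effectivity for quotients of `Y × C 1 × ... × C n`. -/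
def S_EFF2 : Prop := ∀ (k : Type v) (L : Type u) [Field k] [CharZero k] [IsAlgClosed k]
  [Field L] [Algebra k L] (d n : ℕ) (F : Fin n → IntermediateField k L) [∀ i, IsFF k (F i)]
  (G : Subgroup (L ≃ₐ[k] L)) [Finite G] (σ : G →* Equiv.Perm (Fin n)),
    Algebra.trdeg k L = (d + n : ℕ) →
    (∀ (g : G) i, ∀ z ∈ F i, (g : L ≃ₐ[k] L) z ∈ F (σ g i)) →
    ∀ (N m : ℕ), 2 ≤ N → FreeIn N G σ F → 1 ≤ m →
    ∀ x b : Fin n → L, (∀ i, x i ∈ Quo G σ F i) → (∀ i, Transcendental k (x i)) →
      (∀ (g : G) i, (g : L ≃ₐ[k] L) (x i) = x (σ g i)) →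
      (∀ i, b i ∈ Quo G σ F i) → (∀ i, b i ≠ 0) →
      (∀ i, GoodAt (Quo G σ F i) N m (x i) (b i)) →
    ∀ (y : Fin d → L) (a : L), a ≠ 0 →
      (∀ w : Place k L, IsDivisorial w (d + n) → YGood d m w y a) →
      IsTranscendenceBasis k (Fin.append y x : Fin (d + n) → L) →
      IsEff k (fixedField G) (d + n) (fun _ => False)

/-- The canonical divisor of a ruled variety is not pseudo-effective. -/
def S_RULED : Prop := ∀ (k : Type v) (L : Type u) [Field k] [CharZero k] [IsAlgClosed k]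
  [Field L] [Algebra k L] (M : IntermediateField k L) (t : L) (n : ℕ),
    Algebra.trdeg k L = n → Transcendental M t → IntermediateField.adjoin M {t} = ⊤ →
    ¬ IsPsef k L n (fun _ => False)

end Pool.Agent.W619.Y
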